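import Pool.Agent.Helper94.UP.Sheet2

/-! Row ASD of sheet UP. -/

open scoped ContDiff NNReal
open Set Filter Topology

namespace Pool.Agent.Helper89.UP

open Pool.Agent.Helper94.UP

/-- a one-sided bound at a point gives a bound of the derivative -/
theorem asd_der {X : Type*} [NormedAddCommGroup X] [NormedSpace ℝ X] (F : X → ℝ)
    (T : StrongDual ℝ X) (v : X) (ε : ℝ) (hF : HasFDerivAt F T v)
    (h : ∀ᶠ w in 𝓝 v, F v ≤ F w + ε * ‖w - v‖) (z : X) : -(ε * ‖z‖) ≤ T z := by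
  have h1 : HasDerivAt (fun t : ℝ => F (v + t • z)) (T z) 0 := hF.hasLineDerivAt z
  have h2 := (hasDerivAt_iff_tendsto_slope_zero.1 h1).mono_left
    (nhdsWithin_mono (0 : ℝ) (fun t (ht : t ∈ Ioi (0 : ℝ)) => ne_of_gt ht))
  have h3 : Tendsto (fun t : ℝ => v + t • z) (𝓝 0) (𝓝 v) := by
    have hc : Continuous (fun t : ℝ => v + t • z) := by fun_prop
    have h4 := hc.tendsto 0
    simpa using h4
  refine ge_of_tendsto h2 ?_
  filter_upwards [(h3.eventually h).filter_mono nhdsWithin_le_nhds, self_mem_nhdsWithin] with t ht h0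
  have h5 : 0 < t := h0
  have h6 : ‖v + t • z - v‖ = t * ‖z‖ := by
    rw [add_sub_cancel_left, norm_smul, Real.norm_of_nonneg h5.le]
  rw [h6] at ht
  rw [zero_add, zero_smul, add_zero, smul_eq_mul]
  have h7 : -(ε * ‖z‖) = t⁻¹ * -(ε * (t * ‖z‖)) := by
    field_simp
  rw [h7]
  refine mul_le_mul_of_nonneg_left ?_ (inv_nonneg.2 h5.le)
  linarith

theorem stASD.{u} (hE : ST_EKE.{u}) : ST_ASD.{u} := by
  intro X _ _ _ b hb h01 h0 h1 g ε hε
  have hbc : Continuous b := hb.continuous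
  have hgc : Continuous g := g.continuous
  have hg1 : 0 < 1 + ‖g‖ := by positivity
  have hβ : 0 < (1 + ‖g‖)⁻¹ := inv_pos.2 hg1
  -- the norm is less than one where `b` is positive
  have hn : ∀ x, 0 < b x → g x ≤ ‖g‖ := by
    intro x hx
    have h2 : ‖x‖ < 1 := by
      by_contra h3
      rw [h1 x (not_lt.1 h3)] at hx
      exact lt_irrefl _ hx
    calc g x ≤ ‖g x‖ := le_abs_self _
      _ ≤ ‖g‖ * ‖x‖ := g.le_opNorm x
      _ ≤ ‖g‖ * 1 := mul_le_mul_of_nonneg_left h2.le (norm_nonneg _)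
      _ = ‖g‖ := mul_one _
  let S : Set X := {x | (1 + ‖g‖)⁻¹ ≤ b x ∧ 1 ≤ b x * (1 + g x)}
  have hS : IsClosed S :=
    (isClosed_le continuous_const hbc).inter
      (isClosed_le continuous_const (hbc.mul (continuous_const.add hgc)))
  have hS0 : (0 : X) ∈ S := by
    refine ⟨?_, ?_⟩
    · rw [h0]
      exact inv_le_one_of_one_le₀ (by linarith [norm_nonneg g])
    · rw [h0, map_zero]
      norm_num
  have hpos : ∀ x ∈ S, 0 < b x := fun x hx => lt_of_lt_of_le hβ hx.1
  have : CompleteSpace S := hS.completeSpace_coe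
  have : Nonempty S := ⟨⟨0, hS0⟩⟩
  have hψc : Continuous (fun x : S => (b x)⁻¹ - g x) := by
    refine Continuous.sub ?_ (hgc.comp continuous_subtype_val)
    exact (hbc.comp continuous_subtype_val).inv₀ fun x => (hpos x x.2).ne'
  obtain ⟨v, hv⟩ := hE (S := S) (fun x : S => (b x)⁻¹ - g x) hψc
    ⟨-‖g‖, fun w => by
      have h2 := hn w (hpos w w.2)
      have h3 : 0 < (b w)⁻¹ := inv_pos.2 (hpos w w.2)
      linarith⟩ ε hε
  have hbv : 0 < b v := hpos v v.2
  have hv1 : (b v)⁻¹ - g v ≤ 1 := by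
    have h2 : 1 ≤ b v * (1 + g v) := v.2.2
    have h3 : (b v)⁻¹ ≤ 1 + g v := by
      rw [inv_le_iff_one_le_mul₀ hbv]
      linarith [mul_comm (b v) (1 + g v)]
    linarith
  refine ⟨v, hbv, ?_⟩
  -- the inequality for all points near `v`
  have key : ∀ᶠ w in 𝓝 (v : X), ((b v)⁻¹ - g v) ≤ ((b w)⁻¹ - g w) + ε * ‖w - v‖ := by
    filter_upwards [(hbc.tendsto (v : X)).eventually (lt_mem_nhds hbv)] with w hw
    by_cases hwS : w ∈ S
    · have h2 := hv ⟨w, hwS⟩
      have h3 : dist (⟨w, hwS⟩ : S) v = ‖w - v‖ := by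
        rw [Subtype.dist_eq, dist_eq_norm]
      rw [h3] at h2
      exact h2
    · have h2 : 1 ≤ (b w)⁻¹ - g w := by
        by_contra h3
        have h4 : (b w)⁻¹ < 1 + g w := by linarith [not_le.1 h3]
        apply hwS
        refine ⟨?_, ?_⟩
        · rw [inv_le_comm₀ hg1 hw]
          linarith [hn w hw]
        · have h5 : b w * (b w)⁻¹ = 1 := mul_inv_cancel₀ hw.ne'
          nlinarith [mul_lt_mul_of_pos_left h4 hw]
      have h6 : 0 ≤ ε * ‖w - v‖ := by positivity
      linarith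
  have hd : HasFDerivAt (fun x => (b x)⁻¹ - g x) (fderiv ℝ (fun x => (b x)⁻¹) (v : X) - g) v := by
    refine HasFDerivAt.sub (DifferentiableAt.hasFDerivAt ?_) g.hasFDerivAt
    exact ((hb.differentiable (by norm_num)) (v : X)).inv hbv.ne'
  refine ContinuousLinearMap.opNorm_le_bound _ hε.le fun z => ?_
  rw [Real.norm_eq_abs, abs_le]
  refine ⟨asd_der _ _ _ ε hd key z, ?_⟩
  have h8 := asd_der _ _ _ ε hd key (-z)
  rw [map_neg, norm_neg] at h8
  linarith

end Pool.Agent.Helper89.UP
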