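import Pool.Agent.Helper94.UP.Sheet

/-! Row PU of sheet UP. -/

open scoped ZeroAtInfty ContDiff NNReal
open Set Filter Topology MeasureTheory

namespace Pool.Agent.Helper89.UP

open Pool.Agent.Helper94.UP

theorem pu_prod {X : Type*} (b : ℕ → X → ℝ) (h01 : ∀ n x, 0 ≤ b n x ∧ b n x ≤ 1) (N : ℕ) (x : X) :
    0 ≤ ∏ m ∈ Finset.range N, (1 - b m x) ∧ ∏ m ∈ Finset.range N, (1 - b m x) ≤ 1 := by
  constructor
  · exact Finset.prod_nonneg fun m _ => by linarith [(h01 m x).2]
  · exact Finset.prod_le_one (fun m _ => by linarith [(h01 m x).2])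
      fun m _ => by linarith [(h01 m x).1]

theorem pu_mul {a a' c c' s t : ℝ} (ha : |a| ≤ 1) (hc : |c'| ≤ 1) (h1 : |a - a'| ≤ s)
    (h2 : |c - c'| ≤ t) : |a * c - a' * c'| ≤ s + t := by
  have h3 : a * c - a' * c' = a * (c - c') + (a - a') * c' := by ring
  have h4 : |a * (c - c')| ≤ t := by
    rw [abs_mul]
    calc |a| * |c - c'| ≤ 1 * |c - c'| := mul_le_mul_of_nonneg_right ha (abs_nonneg _)
      _ ≤ t := by rw [one_mul]; exact h2
  have h5 : |(a - a') * c'| ≤ s := by
    rw [abs_mul]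
    calc |a - a'| * |c'| ≤ |a - a'| * 1 := mul_le_mul_of_nonneg_left hc (abs_nonneg _)
      _ ≤ s := by rw [mul_one]; exact h1
  rw [h3]
  calc |a * (c - c') + (a - a') * c'| ≤ |a * (c - c')| + |(a - a') * c'| := abs_add_le _ _
    _ ≤ s + t := by linarith

theorem pu_lip {X : Type*} [NormedAddCommGroup X] (b : ℕ → X → ℝ) (B : ℕ → ℝ)
    (h01 : ∀ n x, 0 ≤ b n x ∧ b n x ≤ 1) (hb : ∀ n x y, |b n x - b n y| ≤ B n * ‖x - y‖) (N : ℕ)
    (x y : X) : |∏ m ∈ Finset.range N, (1 - b m x) - ∏ m ∈ Finset.range N, (1 - b m y)| ≤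
      (∑ m ∈ Finset.range N, B m) * ‖x - y‖ := by
  induction N with
  | zero => simp
  | succ N ih =>
    rw [Finset.prod_range_succ, Finset.prod_range_succ, Finset.sum_range_succ, add_mul]
    have h1 := pu_prod b h01 N x
    have h2 := h01 N y
    refine pu_mul ?_ ?_ ih ?_
    · rw [abs_le]
      constructor <;> linarith
    · rw [abs_le]
      constructor <;> linarith
    · have h3 : (1 - b N x) - (1 - b N y) = -(b N x - b N y) := by ring
      rw [h3, abs_neg]
      exact hb N x y

theorem stPU.{u} : ST_PU.{u} := by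
  intro k X _ _ b B hc h01 hB hb
  refine ⟨fun n => ?_, fun n x => ?_, fun N x => ?_, fun n x y => ?_⟩
  · unfold psi
    exact (hc n).mul (contDiff_prod fun m _ => contDiff_const.sub (hc m))
  · exact mul_nonneg (h01 n x).1 (pu_prod b h01 n x).1
  · induction N with
    | zero => simp
    | succ N ih =>
      rw [Finset.sum_range_succ, ih, Finset.prod_range_succ]
      unfold psi
      ring
  · unfold psi
    rw [Finset.sum_range_succ, add_mul, add_comm]
    have h1 := pu_prod b h01 n y
    have h2 := h01 n x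
    refine pu_mul ?_ ?_ (hb n x y) (pu_lip b B h01 hb n x y)
    · rw [abs_le]
      constructor <;> linarith
    · rw [abs_le]
      constructor <;> linarith

end Pool.Agent.Helper89.UP
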